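import Pool.Agent.KS6_45.FK.Tr

set_option autoImplicit false

/-!
# `a! = [a]^k` is consistent with ZF for every `k ≥ 3`

The definitions used in the statement are `IsPair`, `App`, `Bij`, `IsZF`
(`Pool.Graph.R_pool_sql_team_ae5b0c61.H40.BsptDefs`), `IsPerm` (`H40.JzDefs5`, same library team)
and `IsSubN`, `Inj` (`Pool.Agent.KS6_45.FK.Defs`).

The proof. One block is `D = Fin k ⊔ V`, `V` the group of integer vectors of length `k` with
coordinate sum `0`, on which the affine group `V ⋊ Sym(k)` acts (`Fin k` permuted by the linear
parts). The subsets of at most `k` points of a block, other than `Fin k`, are coded equivariantly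
and injectively by permutations of the block with finite support (`Block.lean`), which takes care of
all sets of `k` atoms that are not one of the `Fin k`. The permutations of finite support which are
not codes are enumerated as `s 0, s 1, ...`, with `s i` moving no point of a block `≥ i`, and `s i`
is sent to the copy of `Fin k` in block `i`; the group of the model consists of the permutations
which preserve this assignment (`Fac.lean`, `Mod.lean`). In the permutation model so obtained all
permutations of the set of atoms have finite support, and the assignment is a bijection onto the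
sets of `k` atoms. `Tr.lean` moves this to a model of ZF.
-/

namespace Pool.Agent.Results.MP_7d095a_lc.EveryExponent

open Pool.Agent.H40.Bspt Pool.Agent.H40.Jz Pool.Agent.KS6_45.FK

/-- For every `k ≥ 3` there are a model of ZF and in it a set `A` such that there is a bijection
from `Sym(A)` onto `[A]^k`, and for every `j < k` there is an injection of `[A]^j` into `Sym(A)`
but none of `Sym(A)` into `[A]^j`. -/
theorem result (k : ℕ) (hk : 3 ≤ k) : ∃ (M : Type) (E : M → M → Prop), IsZF E ∧ ∃ A S T f : M,
    (∀ σ, E σ S ↔ IsPerm E A σ) ∧ (∀ X, E X T ↔ IsSubN E k A X) ∧ Bij E f S T ∧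
    ∀ j < k, ∃ T', (∀ X, E X T' ↔ IsSubN E j A X) ∧ (∃ g, Inj E g T' S) ∧
      ¬ ∃ g, Inj E g S T' :=
  (ex_blk hk).elim fun b => main b (by omega)

end Pool.Agent.Results.MP_7d095a_lc.EveryExponent
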